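import Mathlib
import Pool.Agent.Run7.h199.Outer

/-!
Let `κ` be regular, `κ = ℵ_n` or, more generally, `cof([η] ^ ℵ₀, ⊆) < κ` for all `η < κ`, and
suppose that `κ ≥ ℵ_4`, or that `κ ≥ ℵ_2` and there is no strictly increasing `κ`-sequence in
`P(ω) ^ ω` modulo finite.  Then `TP(κ, μ⁺)` implies `2 ^ μ = μ⁺` for every strong limit
`μ = ℵ_(α+β) > κ` with `0 < β < ω₁`.  There is no assumption on `2 ^ ℵ₀`.

In particular, if `ℵ_n`, `n ≥ 4`, has the strong tree property and `ℵ_ω` is a strong limit, then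
`2 ^ ℵ_ω = ℵ_(ω+1)`, and the same holds for every strong limit `ℵ_(α+β)`, `0 < β < ω₁`, above
`ℵ_n`.

Proof idea: for `γ < μ⁺` and a cardinal `l < μ` let `K l γ` be the closure of `l ∪ {γ}` under
injections `δ → |δ|`, their inverses, enumerations of the countable subsets of each level, and the
map that attaches to a sequence of ordinals, one in each level below a limit cardinal `λ ≤ μ`, the
least element of a scale of length `λ⁺` that bounds it modulo bounded.  The scale is chosen with
its values closed off along such closures.  The trace of `K l γ` on a suitable set `Y` of size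
`< κ` is determined by its suprema in the levels, and these are, up to a finite amount of
information, traces of elements of the scales on countable sets.  Club guessing on the points of
cofinality `ω₁` in `ω₃` shows that a scale has at most `ℵ₃` traces on a countable set, so the list
of the `K l γ` is thin after a stabilisation.  A cofinal branch bounds `μ ^ ℵ₀` by `μ⁺`.
-/

universe u

open Cardinal Set Run7.h199

namespace Pool.Agent.Results.MP_237dd7_lc.CountableTailSCH

theorem result (κ : Cardinal.{u}) (hκ : κ.IsRegular)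
    (hbig : ℵ_ 4 ≤ κ ∨ (ℵ_ 2 ≤ κ ∧ NoChain κ))
    (hcov : (∃ n : ℕ, κ = ℵ_ n) ∨ CountCov κ)
    (α β : Ordinal.{u}) (hβ : β ≠ 0) (hβ1 : β.card ≤ ℵ₀)
    (hμ : (ℵ_ (α + β)).IsStrongLimit) (hκμ : κ < ℵ_ (α + β))
    (hTP : TwoCardinalTP κ (Order.succ (ℵ_ (α + β)))) :
    (2 : Cardinal.{u}) ^ ℵ_ (α + β) = Order.succ (ℵ_ (α + β)) := by
  have s1 : Order.succ ℵ₀ = (ℵ_ 1 : Cardinal.{u}) := by
    have := succ_aleph (0 : Ordinal.{u})
    rw [aleph_zero, zero_add] at this
    exact this
  have s2 : (a2 : Cardinal.{u}) = ℵ_ 2 := by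
    have := succ_aleph (1 : Ordinal.{u})
    rw [one_add_one_eq_two] at this
    rw [← this, ← s1]
  have s3 : (a3 : Cardinal.{u}) = ℵ_ 3 := by
    have := succ_aleph (2 : Ordinal.{u})
    rw [show (2 : Ordinal.{u}) + 1 = 3 by norm_num] at this
    rw [← this, ← s2]
  have h34 : (ℵ_ 3 : Cardinal.{u}) < ℵ_ 4 := aleph_lt_aleph.mpr (by norm_num)
  have h12 : (ℵ_ 1 : Cardinal.{u}) < ℵ_ 2 := aleph_lt_aleph.mpr (by norm_num)
  have h24 : (ℵ_ 2 : Cardinal.{u}) ≤ ℵ_ 4 := aleph_le_aleph.mpr (by norm_num)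
  have hbig' : a3 < κ ∨ (Order.succ ℵ₀ < κ ∧ NoChain κ) := by
    rcases hbig with h | ⟨h, h'⟩
    · exact Or.inl (by rw [s3]; exact h34.trans_le h)
    · exact Or.inr ⟨by rw [s1]; exact h12.trans_le h, h'⟩
  have hκ2 : ℵ_ 2 ≤ κ := by
    rcases hbig with h | ⟨h, -⟩
    · exact h24.trans h
    · exact h
  have hcov' : CountCov κ := by
    rcases hcov with ⟨n, rfl⟩ | h
    · refine countCov_aleph ?_
      rintro rfl
      have := aleph_le_aleph.mp hκ2
      simp at this
    · exact h
  have hne : Nonempty β.ToType := by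
    rw [← mk_ne_zero_iff, mk_toType]
    rwa [ne_eq, Ordinal.card_eq_zero]
  have hct : Countable β.ToType := by
    rw [← mk_le_aleph0_iff, mk_toType]
    exact hβ1
  obtain ⟨q, hq⟩ := exists_surjective_nat β.ToType
  refine two_power_of_countable_tail (α := ℵ_ α) hκ hcov' hbig' hμ hκμ ?_
    (fun i => ℵ_ (α + Ordinal.typein (α := β.ToType) (· < ·) (q i))) ?_ hTP
  · exact aleph_lt_aleph.mpr (lt_add_of_pos_right α (pos_iff_ne_zero.mpr hβ))
  · intro l h1 h2
    have h3 : l ∈ Set.range aleph := by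
      rw [range_aleph]
      exact (aleph0_le_aleph α).trans h1
    obtain ⟨o, rfl⟩ := h3
    have h4 : α ≤ o := aleph_le_aleph.mp h1
    have h5 : o < α + β := aleph_lt_aleph.mp h2
    have h6 : o - α < β := by
      rw [Ordinal.sub_lt_of_le h4]
      exact h5
    have h7 : o - α ∈ Set.range (Ordinal.typein (α := β.ToType) (· < ·)) := by
      rw [Ordinal.mem_range_typein_iff]
      simpa using h6
    obtain ⟨t, ht⟩ := h7
    obtain ⟨i, rfl⟩ := hq t
    refine ⟨i, ?_⟩
    simp only [ht, Ordinal.add_sub_cancel_of_le h4]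

end Pool.Agent.Results.MP_237dd7_lc.CountableTailSCH
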