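import Mathlib
import Pool.Agent.Run7.h199.Core

/-!
The tree property `TP(κ, μ⁺)` implies `2 ^ μ = μ⁺` for every strong limit `μ = ℵ_(α+β) > κ`,
`β ≠ 0`, as soon as `η ^ |β| < κ` for all `η < κ`.

In particular, if `κ` has the strong tree property and `η ^ ℵ₀ < κ` for all `η < κ`, then
`2 ^ μ = μ⁺` for every strong limit cardinal `μ = ℵ_(α+β) > κ` with `0 < β < ω₁`.

Proof idea: choose injections `e δ` from `δ` to `|δ|` (`δ < μ⁺`) and call a subset of `μ⁺` closed
if it is closed under `(δ, x) ↦ e δ x`, its inverse, and suprema of countable sequences.  A closed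
set is determined by its elements below `ℵ_α` and its suprema in the `|β| + 1` levels
`[ℵ_(α+ε), ℵ_(α+ε+1))`.  So the list given by the closures of `ℵ_(α+ε) ∪ {γ}` is thin, and a
cofinal branch of it gives a subset `A` of `μ⁺`, `|A| ≥ μ`, all of whose subsets of size `|β|` are
covered by one of `μ⁺` sets of size `< μ`.
-/

universe u

open Cardinal Set Run7.h199

namespace Pool.Agent.Results.MP_237dd7_lc.ShortTailSCH

theorem result (κ : Cardinal.{u}) (hκ : κ.IsRegular) (α β : Ordinal.{u}) (hβ : β ≠ 0)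
    (hcl : ∀ η : Cardinal.{u}, η < κ → η ^ β.card < κ)
    (hμ : (ℵ_ (α + β)).IsStrongLimit) (hκμ : κ < ℵ_ (α + β))
    (hTP : TwoCardinalTP κ (Order.succ (ℵ_ (α + β)))) :
    (2 : Cardinal.{u}) ^ ℵ_ (α + β) = Order.succ (ℵ_ (α + β)) := by
  have hI : ℵ₀ ≤ β.card := by
    rw [← Ordinal.card_omega0]
    apply Ordinal.card_le_card
    by_contra hcon
    push Not at hcon
    obtain ⟨n, rfl⟩ := Ordinal.lt_omega0.mp hcon
    rcases n with _ | n
    · exact hβ (by simp)
    · rw [Nat.cast_add, Nat.cast_one, ← add_assoc, ← succ_aleph] at hμ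
      exact Order.not_isSuccPrelimit_succ _ hμ.isSuccPrelimit
  refine core (I := β.ToType) (ρ := ℵ_ α)
    (fun i => ℵ_ (α + Ordinal.typein (α := β.ToType) (· < ·) i)) (aleph0_le_aleph α) ?_ ?_ ?_ hμ
    ?_ hκ.aleph0_le ?_ hκμ hTP
  · intro i
    exact aleph_le_aleph.mpr le_self_add
  · intro i
    exact aleph_lt_aleph.mpr (by gcongr; exact Ordinal.typein_lt_self i)
  · intro l h1 h2
    have h3 : l ∈ Set.range aleph := by
      rw [range_aleph]
      exact (aleph0_le_aleph α).trans h1
    obtain ⟨o, rfl⟩ := h3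
    have h4 : α ≤ o := aleph_le_aleph.mp h1
    have h5 : o < α + β := aleph_lt_aleph.mp h2
    have h6 : o - α < β := by
      rw [Ordinal.sub_lt_of_le h4]
      exact h5
    have h7 : o - α ∈ Set.range (Ordinal.typein (α := β.ToType) (· < ·)) := by
      rw [Ordinal.mem_range_typein_iff]
      simpa using h6
    obtain ⟨i, hi⟩ := h7
    refine ⟨i, ?_⟩
    simp only [hi, Ordinal.add_sub_cancel_of_le h4]
  · simpa using hI
  · intro η hη
    simpa using hcl η hη

end Pool.Agent.Results.MP_237dd7_lc.ShortTailSCH
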