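import Mathlib
import Pool.Agent.Run7.h199.Specker
import Pool.Agent.Results.MP_237dd7_lc.ShortTailSCH

/-!
Let `μ = ℵ_ ξ`, `ξ ≠ 0`, be a strong limit cardinal which is not a fixed point of the aleph
function.  Then `TP((2 ^ |ξ|)⁺, μ⁺)` and `TP(μ⁺⁺, μ⁺⁺)` do not both hold.  So the regular cardinals
`(2 ^ |ξ|)⁺` and `μ⁺⁺` do not both have the strong tree property: if every regular cardinal `≥ ℵ₂`
has the strong tree property then every uncountable strong limit cardinal is an aleph fixed point.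
-/

universe u

open Cardinal Set Run7.h199

namespace Pool.Agent.Results.MP_237dd7_lc.NotBothTP

theorem result (ξ : Ordinal.{u}) (hξ : ξ ≠ 0) (hμ : (ℵ_ ξ).IsStrongLimit)
    (hfix : ξ.card < ℵ_ ξ) :
    ¬ (TwoCardinalTP (Order.succ ((2 : Cardinal.{u}) ^ ξ.card)) (Order.succ (ℵ_ ξ)) ∧
      TwoCardinalTP (Order.succ (Order.succ (ℵ_ ξ))) (Order.succ (Order.succ (ℵ_ ξ)))) := by
  rintro ⟨h1, h2⟩
  have hI : ℵ₀ ≤ ξ.card := by
    rw [← Ordinal.card_omega0]
    apply Ordinal.card_le_card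
    by_contra hcon
    push Not at hcon
    obtain ⟨n, rfl⟩ := Ordinal.lt_omega0.mp hcon
    rcases n with _ | n
    · exact hξ (by simp)
    · rw [Nat.cast_add, Nat.cast_one, ← succ_aleph] at hμ
      exact Order.not_isSuccPrelimit_succ _ hμ.isSuccPrelimit
  have h2ξ : ℵ₀ ≤ (2 : Cardinal.{u}) ^ ξ.card := hI.trans (cantor _).le
  have h3 : (2 : Cardinal.{u}) ^ ξ.card < ℵ_ ξ := hμ.isStrongPrelimit hfix
  have h4 : (2 : Cardinal.{u}) ^ ℵ_ ξ = Order.succ (ℵ_ ξ) := by
    have := ShortTailSCH.result (Order.succ ((2 : Cardinal.{u}) ^ ξ.card))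
      (isRegular_succ h2ξ) 0 ξ hξ ?_ (by rwa [zero_add]) ?_ (by rwa [zero_add])
    · rwa [zero_add] at this
    · intro η hη
      rw [Order.lt_succ_iff] at hη ⊢
      calc η ^ ξ.card ≤ ((2 : Cardinal.{u}) ^ ξ.card) ^ ξ.card := power_le_power_right hη
        _ = 2 ^ ξ.card := by rw [← power_mul, mul_eq_self hI]
    · rw [zero_add]
      exact hμ.isSuccLimit.succ_lt h3
  exact not_tp_of_two_power hμ.aleph0_le h4 h2

end Pool.Agent.Results.MP_237dd7_lc.NotBothTP
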